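import Mathlib

namespace Pool.Agent.H.MP_752880_co
open Finset Equiv

/-- number of cycles of a permutation, fixed points included -/
noncomputable def cyc {n : ℕ} (π : Perm (Fin n)) : ℕ :=
  Nat.card (Quotient (Perm.SameCycle.setoid π))

/-- `τ` sends every element to the next larger element of its block, and the largest element of a
block to the smallest one -/
def IsTau {n : ℕ} (s : Setoid (Fin n)) (τ : Perm (Fin n)) : Prop :=
  ∀ i, s i (τ i) ∧ ((i < τ i ∧ ∀ j, s i j → i < j → τ i ≤ j) ∨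
    ((∀ j, s i j → j ≤ i) ∧ ∀ j, s i j → τ i ≤ j))

/-- the partition `s` has genus `g` -/
def HasGenus {n : ℕ} (s : Setoid (Fin n)) (g : ℕ) : Prop :=
  ∃ τ, IsTau s τ ∧ Nat.card (Quotient s) + cyc (τ⁻¹ * finRotate n) + 2 * g = n + 1

noncomputable def S (n k g : ℕ) : ℕ :=
  Nat.card {s : Setoid (Fin n) // Nat.card (Quotient s) = k ∧ HasGenus s g}

open Classical in
noncomputable def nmin {n : ℕ} (s : Setoid (Fin n)) : Finset (Fin n) :=
  univ.filter fun i => ∀ j, s i j → i ≤ j

lemma mem_nmin {n : ℕ} (s : Setoid (Fin n)) (i : Fin n) :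
    i ∈ nmin s ↔ ∀ j, s i j → i ≤ j := by simp [nmin]

lemma ex_min {n : ℕ} (s : Setoid (Fin n)) (a : Fin n) : ∃ i ∈ nmin s, s a i := by
  classical
  have hne : (univ.filter fun j => s a j).Nonempty := ⟨a, by simp⟩
  have h := (mem_filter.1 (min'_mem _ hne)).2
  exact ⟨_, (mem_nmin _ _).2 fun j hj => min'_le _ _ (mem_filter.2 ⟨mem_univ _, s.trans' h hj⟩), h⟩

lemma card_quot {n : ℕ} (s : Setoid (Fin n)) : Nat.card (Quotient s) = #(nmin s) := by
  rw [← Fintype.card_coe, ← Nat.card_eq_fintype_card]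
  refine (Nat.card_congr (Equiv.ofBijective (fun i : nmin s => Quotient.mk s i.1)
    ⟨fun i j e => Subtype.ext ?_, fun q => ?_⟩)).symm
  · have e : s i.1 j.1 := Quotient.exact e
    exact le_antisymm ((mem_nmin _ _).1 i.2 _ e) ((mem_nmin _ _).1 j.2 _ (s.symm' e))
  · obtain ⟨a, rfl⟩ := q.exists_rep
    obtain ⟨i, h1, h2⟩ := ex_min s a
    exact ⟨⟨i, h1⟩, Quotient.sound (s.symm' h2)⟩

lemma fix_min {n : ℕ} (π : Perm (Fin n)) (i : Fin n) (h : π i = i) :
    i ∈ nmin (Perm.SameCycle.setoid π) :=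
  (mem_nmin _ _).2 fun _ hj => (Perm.SameCycle.eq_of_left hj h).le

lemma cyc_split {n : ℕ} (π : Perm (Fin n)) : cyc π =
    #((nmin (Perm.SameCycle.setoid π)).filter fun i => π i ≠ i) +
      #(univ.filter fun i => π i = i) := by
  rw [cyc, card_quot, ← card_filter_add_card_filter_not (fun i => π i ≠ i)]
  congr 2
  ext i
  simp only [mem_filter, not_not, mem_univ, true_and]
  exact ⟨fun h => h.2, fun h => ⟨fix_min π i h, h⟩⟩

lemma sign_eq {n : ℕ} (π : Perm (Fin n)) : Perm.sign π = (-1) ^ (n + cyc π) := by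
  have h1 : #((nmin (Perm.SameCycle.setoid π)).filter fun i => π i ≠ i) =
      Multiset.card π.cycleType := by
    rw [Perm.cycleType_def, Multiset.card_map]
    refine card_bij (fun i _ => π.cycleOf i) (fun i hi => ?_) (fun i hi j hj e => ?_)
      fun c hc => ?_
    · exact Perm.cycleOf_mem_cycleFactorsFinset_iff.2 (Perm.mem_support.2 (mem_filter.1 hi).2)
    · obtain ⟨h1, h2⟩ := mem_filter.1 hi
      obtain ⟨h3, h4⟩ := mem_filter.1 hj
      have e := (Perm.sameCycle_iff_cycleOf_eq_of_mem_support (Perm.mem_support.2 h2)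
        (Perm.mem_support.2 h4)).2 e
      exact le_antisymm ((mem_nmin _ _).1 h1 _ e) ((mem_nmin _ _).1 h3 _ e.symm)
    · obtain ⟨a, ha⟩ := (Perm.mem_cycleFactorsFinset_iff.1 hc).1.nonempty_support
      obtain ⟨i, h1, h2⟩ := ex_min (Perm.SameCycle.setoid π) a
      have h2 : π.SameCycle a i := h2
      have h3 : π a ≠ a := by
        rw [← (Perm.mem_cycleFactorsFinset_iff.1 hc).2 a ha]; exact Perm.mem_support.1 ha
      exact ⟨i, mem_filter.2 ⟨h1, fun h => h3 (h2.apply_eq_self_iff.2 h)⟩,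
        by rw [Perm.cycle_is_cycleOf ha hc, h2.cycleOf_eq]⟩
  have h2 : #π.support + #(univ.filter fun i => π i = i) = n := by
    have := card_filter_add_card_filter_not (s := (univ : Finset (Fin n))) (fun i => π i ≠ i)
    simp only [not_not, card_univ, Fintype.card_fin] at this
    exact this
  rw [Perm.sign_of_cycleType, Perm.sum_cycleType, cyc_split, h1]
  generalize #(univ.filter fun i => π i = i) = f at *
  rw [show n + (Multiset.card π.cycleType + f) =
    #π.support + Multiset.card π.cycleType + 2 * f by omega, pow_add _ _ (2 * f), pow_mul]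
  simp

lemma exTau {n : ℕ} (s : Setoid (Fin n)) : ∃ τ, IsTau s τ := by
  classical
  have : ∀ i, ∃ t, s i t ∧ ((i < t ∧ ∀ j, s i j → i < j → t ≤ j) ∨
      ((∀ j, s i j → j ≤ i) ∧ ∀ j, s i j → t ≤ j)) := by
    intro i
    by_cases hne : (univ.filter fun j => s i j ∧ i < j).Nonempty
    · have h := (mem_filter.1 (min'_mem _ hne)).2
      exact ⟨_, h.1, Or.inl ⟨h.2, fun j h1 h2 => min'_le _ _ (by simp [h1, h2])⟩⟩
    · obtain ⟨t, h1, h2⟩ := ex_min s i
      refine ⟨t, h2, Or.inr ⟨fun j hj => not_lt.1 fun h => hne ⟨j, by simp [hj, h]⟩,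
        fun j hj => (mem_nmin _ _).1 h1 j (s.trans' (s.symm' h2) hj)⟩⟩
  choose t ht using this
  have key : ∀ i j, t i = t j → ¬ i < j := by
    intro i j e hlt
    have hij : s i j := s.trans' (ht i).1 (e ▸ s.symm' (ht j).1)
    rcases (ht i).2 with ⟨h1, h2⟩ | ⟨h1, -⟩
    · rcases (ht j).2 with ⟨h3, -⟩ | ⟨-, h3⟩
      · exact absurd (h2 j hij hlt) (not_le.2 (e ▸ h3))
      · exact absurd (h3 i (s.symm' hij)) (not_le.2 (e ▸ h1))
    · exact absurd (h1 j hij) (not_le.2 hlt)
  exact ⟨Equiv.ofBijective t (Finite.injective_iff_bijective.1 fun i j e =>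
    le_antisymm (not_lt.1 (key j i e.symm)) (not_lt.1 (key i j e))), ht⟩

lemma tau_unique {n : ℕ} (s : Setoid (Fin n)) : ∃! τ, IsTau s τ := by
  obtain ⟨τ, h⟩ := exTau s
  refine ⟨τ, h, fun ρ h' => Equiv.ext fun i => ?_⟩
  rcases (h i).2 with ⟨h1, h2⟩ | ⟨h1, h2⟩ <;> rcases (h' i).2 with ⟨h3, h4⟩ | ⟨h3, h4⟩
  · exact le_antisymm (h4 _ (h i).1 h1) (h2 _ (h' i).1 h3)
  · exact absurd (h3 _ (h i).1) (not_le.2 h1)
  · exact absurd (h1 _ (h' i).1) (not_le.2 h3)
  · exact le_antisymm (h4 _ (h i).1) (h2 _ (h' i).1)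

lemma cyc_tau {n : ℕ} {s : Setoid (Fin n)} {τ : Perm (Fin n)} (h : IsTau s τ) :
    cyc τ = Nat.card (Quotient s) := by
  have h1 : ∀ (k : ℕ) i, s i ((τ ^ k) i) := by
    intro k
    induction k with
    | zero => intro i; exact s.refl' i
    | succ k ih => intro i; rw [pow_succ', Perm.mul_apply]; exact s.trans' (ih i) (h _).1
  have h2 : ∀ (d : ℕ) (i j : Fin n), j.val = i + d → s i j → τ.SameCycle i j := by
    intro d
    induction d using Nat.strong_induction_on with
    | _ d ih =>
      intro i j e hs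
      by_cases hd : d = 0
      · rw [Fin.ext (show j.val = i by omega)]
      · have hlt : i < j := by rw [Fin.lt_def]; omega
        rcases (h i).2 with ⟨h3, h4⟩ | ⟨h3, -⟩
        · have h5 := h4 j hs hlt
          rw [Fin.lt_def] at h3
          rw [Fin.le_def] at h5
          exact Perm.sameCycle_apply_left.1 (ih (j - τ i) (by omega) _ _ (by omega)
            (s.trans' (s.symm' (h i).1) hs))
        · exact absurd (h3 j hs) (not_le.2 hlt)
  rw [cyc, card_quot, card_quot]
  congr 1
  ext i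
  simp only [mem_nmin]
  constructor
  · intro g j hj
    by_contra hc
    rw [Fin.le_def] at hc
    exact hc (g j (h2 (i - j) j i (by omega) (s.symm' hj)).symm)
  · intro g j hj
    obtain ⟨k, -, rfl⟩ := Perm.SameCycle.exists_pow_eq' hj
    exact g _ (h1 k i)

open Classical in
noncomputable def chg {n : ℕ} (s : Setoid (Fin n)) : ℕ :=
  #(univ.filter fun i => ¬ s i (finRotate n i))

lemma faces {n : ℕ} {s : Setoid (Fin (n + 1))} {τ : Perm (Fin (n + 1))} (h : IsTau s τ)
    (h3 : Nat.card (Quotient s) = 3) :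
    cyc (τ⁻¹ * finRotate (n + 1)) + chg s = n + 1 + if chg s % 2 = 1 then 1 else 2 := by
  classical
  set φ := τ⁻¹ * finRotate (n + 1) with hφ
  have hτ : ∀ i, τ (φ i) = finRotate (n + 1) i := fun i => by simp [hφ]
  have hr : ∀ i : Fin (n + 1), (finRotate (n + 1) i : ℕ) = if i = Fin.last n then 0 else i.val + 1 :=
    @coe_finRotate n
  have hfix : ∀ i, φ i = i ↔ s i (finRotate (n + 1) i) := by
    intro i
    constructor
    · intro e
      rw [← hτ, e]; exact (h i).1
    · intro e
      apply τ.injective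
      rw [hτ]
      have h1 := hr i
      have := i.2
      have := (τ i).2
      rcases (h i).2 with ⟨h4, h5⟩ | ⟨h4, h5⟩
      · rw [Fin.lt_def] at h4
        rw [if_neg (by rintro rfl; simp at h4; omega)] at h1
        have := h5 _ e (by rw [Fin.lt_def]; omega)
        rw [Fin.le_def] at this
        exact Fin.ext (by omega)
      · have h6 := h4 _ e
        have h7 := h5 _ e
        rw [Fin.le_def] at h6 h7
        split_ifs at h1
        · exact Fin.ext (by omega)
        · omega
  have hf : #(univ.filter fun i => φ i = i) + chg s = n + 1 := by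
    have := card_filter_add_card_filter_not (s := (univ : Finset (Fin (n + 1))))
      (fun i => s i (finRotate (n + 1) i))
    rw [card_univ, Fintype.card_fin] at this
    rw [filter_congr fun i _ => hfix i]
    exact this
  have h0 : (0 : Fin (n + 1)) ∈ nmin s := (mem_nmin _ _).2 fun j _ => Fin.zero_le j
  rw [card_quot] at h3
  have hle : #((nmin (Perm.SameCycle.setoid φ)).filter fun i => φ i ≠ i) ≤ 2 := by
    rw [show 2 = #((nmin s).erase 0) by rw [card_erase_of_mem h0, h3]]
    refine card_le_card_of_injOn (finRotate (n + 1)) (fun i hi => ?_)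
      (finRotate (n + 1)).injective.injOn
    obtain ⟨h4, h5⟩ := mem_filter.1 (mem_coe.1 hi)
    have h6 : i < φ i := lt_of_le_of_ne ((mem_nmin _ _).1 h4 _
      (Perm.sameCycle_apply_right.2 (Perm.SameCycle.refl _ _))) h5.symm
    have h1 := hr i
    have := (φ i).2
    rw [Fin.lt_def] at h6
    rw [if_neg (by rintro rfl; simp at h6; omega)] at h1
    refine mem_coe.2 (mem_erase.2 ⟨fun e => by rw [e] at h1; simp at h1, (mem_nmin _ _).2 ?_⟩)
    rcases (h (φ i)).2 with ⟨h7, -⟩ | ⟨-, h7⟩
    · rw [hτ, Fin.lt_def] at h7; omega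
    · intro j hj
      rw [← hτ] at hj ⊢
      exact h7 j (s.trans' (h _).1 hj)
  have hge : 0 < #((nmin (Perm.SameCycle.setoid φ)).filter fun i => φ i ≠ i) := by
    by_contra hc
    have hall : ∀ i, φ i = i := by
      intro a
      by_contra ha
      obtain ⟨i, h1, h2⟩ := ex_min (Perm.SameCycle.setoid φ) a
      have h2 : φ.SameCycle a i := h2
      exact hc (card_pos.2 ⟨i, mem_filter.2 ⟨h1, fun h => ha (h2.apply_eq_self_iff.2 h)⟩⟩)
    have hs : ∀ i, s 0 i := by
      intro i
      induction i using Fin.induction with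
      | zero => exact s.refl' _
      | succ i ih =>
        have := (hfix i.castSucc).1 (hall _)
        rw [finRotate_succ_apply, Fin.coeSucc_eq_succ] at this
        exact s.trans' ih this
    have : nmin s ⊆ {0} := fun i hi =>
      mem_singleton.2 (le_antisymm ((mem_nmin _ _).1 hi 0 (s.symm' (hs i))) (Fin.zero_le _))
    have := card_le_card this
    simp at this; omega
  have hsg := sign_eq φ
  rw [hφ, map_mul, Perm.sign_inv, sign_eq τ, cyc_tau h, card_quot, h3, sign_finRotate,
    ← pow_add, ← hφ] at hsg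
  have hpar : (n + 1 + cyc φ) % 2 = 0 := by
    rw [Even.neg_one_pow ⟨n + 2, by omega⟩] at hsg
    by_contra hc
    rw [Odd.neg_one_pow (Nat.odd_iff.2 (by omega))] at hsg
    exact absurd hsg (by decide)
  rw [cyc_split] at hpar ⊢
  split_ifs <;> omega

lemma genus_iff {n : ℕ} (s : Setoid (Fin (n + 1))) (h3 : Nat.card (Quotient s) = 3) (g : ℕ) :
    HasGenus s g ↔ chg s = 2 * g + 3 ∨ chg s = 2 * g + 4 := by
  constructor
  · rintro ⟨τ, h, e⟩
    have := faces h h3
    split_ifs at this <;> omega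
  · intro e
    obtain ⟨τ, h⟩ := exTau s
    have := faces h h3
    exact ⟨τ, h, by split_ifs at this <;> omega⟩

end Pool.Agent.H.MP_752880_co
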