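import Pool.Agent.H.MP_752880_co.A

namespace Pool.Agent.H.MP_752880_co
open Finset Equiv Polynomial

noncomputable def wt (a b : Fin 3) : ℚ[X] := if a = b then 1 else X

noncomputable def Q {n : ℕ} (a : Fin 3) (w : Fin n → Fin 3) (b : Fin 3) : ℚ[X] :=
  ∏ i : Fin (n + 1), wt ((Fin.cons a w : Fin (n + 1) → Fin 3) i)
    ((Fin.snoc w b : Fin (n + 1) → Fin 3) i)

noncomputable def T (A : Finset (Fin 3)) (n : ℕ) (a b : Fin 3) : ℚ[X] :=
  ∑ w : Fin n → Fin 3, if ∀ i, w i ∈ A then Q a w b else 0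

lemma sum_cons {n : ℕ} (A : Finset (Fin 3)) (f : (Fin (n + 1) → Fin 3) → ℚ[X]) :
    (∑ w, if ∀ i, w i ∈ A then f w else 0) =
      ∑ c ∈ A, ∑ w : Fin n → Fin 3, if ∀ i, w i ∈ A then f (Fin.cons c w) else 0 := by
  rw [← (Fin.consEquiv fun _ => Fin 3).sum_comp, Fintype.sum_prod_type,
    ← sum_subset (subset_univ A)]
  · refine sum_congr rfl fun c hc => sum_congr rfl fun w _ => ?_
    simp [Fin.forall_fin_succ, hc, Fin.consEquiv]
  · intro c _ hc
    refine sum_eq_zero fun w _ => if_neg fun h => hc ?_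
    simpa [Fin.consEquiv] using h 0

lemma T_succ (A : Finset (Fin 3)) (n : ℕ) (a b : Fin 3) :
    T A (n + 1) a b = ∑ c ∈ A, wt a c * T A n c b := by
  rw [T, sum_cons]
  refine sum_congr rfl fun c _ => ?_
  rw [T, mul_sum]
  refine sum_congr rfl fun w _ => ?_
  split_ifs
  · rw [Q, Q, Fin.prod_univ_succ, ← Fin.cons_snoc_eq_snoc_cons]
    simp
  · simp

lemma T_eq (A : Finset (Fin 3)) (n : ℕ) : ∀ a ∈ A, ∀ b ∈ A, (#A : ℚ[X]) * T A n a b =
    (1 + ((#A : ℚ[X]) - 1) * X) ^ (n + 1) + ((#A : ℚ[X]) * (if a = b then 1 else 0) - 1) * (1 - X) ^ (n + 1) := by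
  induction n with
  | zero =>
    intro a _ b _
    have : T A 0 a b = wt a b := by simp [T, Q, Fin.snoc]
    rw [this, wt]
    split_ifs <;> ring
  | succ n ih =>
    intro a ha b hb
    have h1 : ∑ c ∈ A, wt a c = 1 + ((#A : ℚ[X]) - 1) * X := by
      rw [← add_sum_erase _ _ ha, sum_congr rfl (f := fun c => wt a c) (g := fun _ => X)
        fun c hc => if_neg (mem_erase.1 hc).1.symm, sum_const, card_erase_of_mem ha, nsmul_eq_mul,
        Nat.cast_sub (card_pos.2 ⟨a, ha⟩)]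
      simp [wt]
    have h2 : ∑ c ∈ A, wt a c * (if c = b then 1 else 0) = wt a b := by simp [hb]
    rw [T_succ, mul_sum, sum_congr rfl (g := fun c => wt a c * ((1 + ((#A : ℚ[X]) - 1) * X) ^ (n + 1) -
      (1 - X) ^ (n + 1)) + wt a c * (if c = b then 1 else 0) * ((#A : ℚ[X]) * (1 - X) ^ (n + 1)))
      fun c hc => by rw [mul_left_comm, ih c hc b hb]; ring,
      sum_add_distrib, ← sum_mul, ← sum_mul, h1, h2, wt]
    split_ifs <;> ring

lemma chg_prod {n : ℕ} (v : Fin (n + 1) → Fin 3) :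
    (X : ℚ[X]) ^ chg (Setoid.ker v) = Q (v 0) (Fin.tail v) (v 0) := by
  classical
  rw [Q, Fin.snoc_eq_cons_rotate, Fin.cons_self_tail, chg, card_filter, ← prod_pow_eq_pow_sum]
  refine prod_congr rfl fun i _ => ?_
  by_cases h : v i = v (finRotate (n + 1) i)
  · rw [wt, if_pos h, if_neg (not_not.2 (Setoid.ker_def.2 h)), pow_zero]
  · rw [wt, if_neg h, if_pos (mt Setoid.ker_def.1 h), pow_one]

noncomputable def Cy (A : Finset (Fin 3)) (n : ℕ) : ℚ[X] :=
  ∑ v : Fin (n + 1) → Fin 3, if ∀ i, v i ∈ A then X ^ chg (Setoid.ker v) else 0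

lemma Cy_eq (A : Finset (Fin 3)) (q : ℕ) (hA : #A = q + 1) (n : ℕ) :
    Cy A n = (1 + C (q : ℚ) * X) ^ (n + 1) + C (q : ℚ) * (1 + C (-1 : ℚ) * X) ^ (n + 1) := by
  have h0 : (#A : ℚ[X]) ≠ 0 := Nat.cast_ne_zero.2 (by omega)
  apply mul_left_cancel₀ h0
  rw [Cy, sum_cons, mul_sum, sum_congr rfl (g := fun _ => (1 + ((#A : ℚ[X]) - 1) * X) ^ (n + 1) +
    ((#A : ℚ[X]) - 1) * (1 - X) ^ (n + 1))]
  · rw [sum_const, nsmul_eq_mul, hA]
    simp only [map_natCast, map_neg, map_one]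
    push_cast
    ring
  · intro c hc
    have := T_eq A n c hc c hc
    rw [if_pos rfl, mul_one] at this
    rw [← this, T]
    simp only [chg_prod, Fin.cons_zero, Fin.tail_cons]

lemma co (a : ℚ) (n k : ℕ) : ((1 + C a * X) ^ n).coeff k = n.choose k * a ^ k := by
  rw [← coeff_one_add_X_pow, ← comp_C_mul_X_coeff]
  simp

open Classical in
lemma surj_count (n m : ℕ) (hm : 0 < m) :
    (#(univ.filter fun v : Fin (n + 1) → Fin 3 => Function.Surjective v ∧
      chg (Setoid.ker v) = m) : ℚ) = (n + 1).choose m * (2 ^ m - (-1) ^ m - 3) := by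
  have key : (∑ v : Fin (n + 1) → Fin 3, if Function.Surjective v then
      (X : ℚ[X]) ^ chg (Setoid.ker v) else 0) =
      Cy univ n - ∑ c, Cy (univ.erase c) n + ∑ c, Cy {c} n := by
    simp only [Cy]
    rw [sum_comm, sum_comm (s := (univ : Finset (Fin 3))), ← sum_sub_distrib, ← sum_add_distrib]
    refine sum_congr rfl fun v _ => ?_
    have e1 : ∀ c, (∀ i, v i ∈ univ.erase c) ↔ ¬ ∃ i, v i = c := fun c => by simp
    have e2 : ∀ c, (∀ i, v i ∈ ({c} : Finset (Fin 3))) ↔ ∀ d, (∃ i, v i = d) → d = c :=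
      fun c => ⟨fun h d ⟨i, e⟩ => e ▸ mem_singleton.1 (h i),
        fun h i => mem_singleton.2 (h _ ⟨i, rfl⟩)⟩
    have e3 : (∃ i, v i = 0) ∨ (∃ i, v i = 1) ∨ ∃ i, v i = 2 := by
      have : ∀ c : Fin 3, c = 0 ∨ c = 1 ∨ c = 2 := by decide
      rcases this (v 0) with h | h | h
      exacts [Or.inl ⟨0, h⟩, Or.inr (Or.inl ⟨0, h⟩), Or.inr (Or.inr ⟨0, h⟩)]
    simp only [e1, e2, Function.Surjective, Fin.forall_fin_succ (n := 2),
      Fin.forall_fin_succ (n := 1), Fin.forall_fin_succ (n := 0), Fin.sum_univ_three]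
    by_cases h0 : ∃ i, v i = 0 <;> by_cases h1 : ∃ i, v i = 1 <;> by_cases h2 : ∃ i, v i = 2 <;>
      simp_all
  have := congrArg (fun p : ℚ[X] => p.coeff m) key
  rw [sum_congr rfl fun c _ => Cy_eq (univ.erase c) 1 (by simp) n,
    sum_congr rfl fun c _ => Cy_eq {c} 0 (by simp) n, Cy_eq univ 2 (by simp)] at this
  simp only [finset_sum_coeff, coeff_add, coeff_sub, coeff_C_mul, co] at this
  simp only [sum_const, card_univ, Fintype.card_fin, nsmul_eq_mul] at this
  rw [card_filter, Nat.cast_sum, sum_congr rfl (g := fun v => (if Function.Surjective v then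
      (X : ℚ[X]) ^ chg (Setoid.ker v) else 0).coeff m), this]
  · push_cast
    rw [zero_pow hm.ne']
    ring
  · intro v _
    by_cases h : Function.Surjective v
    · simp [h, coeff_X_pow, eq_comm]
    · simp [h]

open Classical in
lemma fiber {n : ℕ} (P : Setoid (Fin n) → Prop) :
    #(univ.filter fun v : Fin n → Fin 3 => Function.Surjective v ∧ P (Setoid.ker v)) =
      6 * Nat.card {s : Setoid (Fin n) // Nat.card (Quotient s) = 3 ∧ P s} := by
  have : Finite (Setoid (Fin n)) :=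
    Finite.of_injective (fun s => s.r) fun _ _ h => Setoid.ext fun a b => by
      have := congrFun (congrFun h a) b
      exact iff_of_eq this
  have : Fintype (Setoid (Fin n)) := Fintype.ofFinite _
  rw [Nat.card_eq_fintype_card, Fintype.card_subtype,
    card_eq_sum_card_fiberwise (f := fun v => Setoid.ker v)
      (t := univ.filter fun s : Setoid (Fin n) => Nat.card (Quotient s) = 3 ∧ P s),
    sum_congr rfl (g := fun _ => 6), sum_const, smul_eq_mul, mul_comm]
  · intro s hs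
    obtain ⟨h1, h2⟩ := (mem_filter.1 hs).2
    have e : Nonempty (Quotient s ≃ Fin 3) := Finite.card_eq.1 (by simpa using h1)
    have h6 : Fintype.card (Quotient s ≃ Fin 3) = 6 := by
      rw [Fintype.card_equiv e.some, ← Nat.card_eq_fintype_card, h1]; rfl
    rw [← h6, ← card_univ]
    symm
    refine card_bij (fun e _ => fun i => e (Quotient.mk s i)) (fun e _ => ?_)
      (fun e _ e' _ h => Equiv.ext fun q => ?_) fun v hv => ?_
    · have : Setoid.ker (fun i => e (Quotient.mk s i)) = s :=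
        Setoid.ext fun a b => by simp [Setoid.ker_def, Quotient.eq]
      simp only [mem_filter, mem_univ, true_and, this, h2, and_true]
      exact e.surjective.comp Quotient.mk_surjective
    · obtain ⟨a, rfl⟩ := q.exists_rep
      exact congrFun h a
    · simp only [mem_filter, mem_univ, true_and] at hv
      obtain ⟨⟨h3, -⟩, rfl⟩ := hv
      exact ⟨Setoid.quotientKerEquivOfSurjective v h3, mem_univ _, rfl⟩
  · intro v hv
    simp only [coe_filter, mem_univ, true_and, Set.mem_setOf_eq] at hv ⊢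
    exact ⟨by rw [Nat.card_congr (Setoid.quotientKerEquivOfSurjective v hv.1)]; simp, hv.2⟩

theorem main (n : ℕ) (hn : 1 ≤ n) (g : ℕ) : (S n 3 g : ℚ) =
    (4 ^ (g + 1) - 1) * ((n : ℚ) - g - 1) / (3 * (g + 2)) * n.choose (2 * g + 3) := by
  classical
  obtain ⟨n, rfl⟩ := Nat.exists_eq_add_of_le' hn
  have h1 := fiber (n := n + 1) fun s => chg s = 2 * g + 3 ∨ chg s = 2 * g + 4
  have h2 : S (n + 1) 3 g = Nat.card {s : Setoid (Fin (n + 1)) // Nat.card (Quotient s) = 3 ∧
      (chg s = 2 * g + 3 ∨ chg s = 2 * g + 4)} :=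
    Nat.card_congr (Equiv.subtypeEquivRight fun s => and_congr_right fun h => genus_iff s h g)
  simp only [and_or_left, filter_or] at h1 h2
  rw [← h2, card_union_of_disjoint (disjoint_filter.2 fun v _ h h' => by omega)] at h1
  have h3 := congrArg (Nat.cast : ℕ → ℚ) h1
  push_cast at h3
  rw [surj_count _ _ (by omega), surj_count _ _ (by omega), Odd.neg_one_pow ⟨g + 1, by ring⟩,
    Even.neg_one_pow ⟨g + 2, by ring⟩] at h3
  have h4 : ((n + 1).choose (2 * g + 4) : ℚ) * (2 * g + 4) =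
      (n + 1).choose (2 * g + 3) * ((n : ℚ) + 1 - (2 * g + 3)) := by
    rcases le_or_gt (2 * g + 3) (n + 1) with h | h
    · have := congrArg (Nat.cast : ℕ → ℚ) (Nat.choose_succ_right_eq (n + 1) (2 * g + 3))
      rw [Nat.cast_mul, Nat.cast_mul, Nat.cast_sub h] at this
      push_cast at this
      rw [← this]; ring
    · rw [Nat.choose_eq_zero_of_lt h, Nat.choose_eq_zero_of_lt (by omega)]; simp
  have h5 : (2 : ℚ) ^ (2 * g + 3) = 2 * 4 ^ (g + 1) := by
    rw [show (4 : ℚ) = 2 ^ 2 by norm_num, ← pow_mul]; ring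
  have h6 : (2 : ℚ) ^ (2 * g + 4) = 4 * 4 ^ (g + 1) := by
    rw [pow_succ, h5]; ring
  rw [h5, h6] at h3
  push_cast
  field_simp
  linear_combination (-(g + 2) / 2 : ℚ) * h3 + (4 ^ (g + 1) - 1 : ℚ) * h4

end Pool.Agent.H.MP_752880_co
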